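import Pool.Agent.V11277.Net

/-!
# Consistent systems of equations `x_i = 1`, `x_i + x_j = x_k` have small rational solutions

A maximal consistent system which contains the given one has a unique solution: otherwise some
coordinate is not constant on a line of solutions, so it takes the value `1` on it, and the system
can be enlarged. The unique solution is bounded by `Pool.Agent.V11277.Net.unique_solution`.
-/

set_option autoImplicit false

namespace Pool.Agent.Results.MP_e9426e_al.SmallRationalSolution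

open Pool.Agent.V11277.Net

instance (n : ℕ) : Finite (Eqn n) := by
  refine Finite.of_surjective
    (fun s : Fin n ⊕ Fin n × Fin n × Fin n => match s with
      | Sum.inl i => Eqn.one i
      | Sum.inr t => Eqn.add t.1 t.2.1 t.2.2) ?_
  rintro (i | ⟨i, j, k⟩)
  · exact ⟨Sum.inl i, rfl⟩
  · exact ⟨Sum.inr (i, j, k), rfl⟩

/-- For all complex numbers `x_1, ..., x_n` there are rational numbers `y_1, ..., y_n` in
`[-2 ^ (n - 1), 2 ^ (n - 1)]` which satisfy all the equations `y_i = 1` and `y_i + y_j = y_k` that the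
given numbers satisfy. -/
theorem result (n : ℕ) (x : Fin n → ℂ) : ∃ y : Fin n → ℚ,
    (∀ i, -2 ^ (n - 1) ≤ y i ∧ y i ≤ 2 ^ (n - 1)) ∧ (∀ i, x i = 1 → y i = 1) ∧
      ∀ i j k, x i + x j = x k → y i + y j = y k := by
  have hne : {T : Set (Eqn n) | {e : Eqn n | e.Holds x} ⊆ T ∧
      ∃ z : Fin n → ℂ, ∀ e ∈ T, e.Holds z}.Nonempty :=
    ⟨{e : Eqn n | e.Holds x}, subset_rfl, x, fun e he => he⟩
  obtain ⟨T, hT⟩ := (Set.toFinite {T : Set (Eqn n) | {e : Eqn n | e.Holds x} ⊆ T ∧
      ∃ z : Fin n → ℂ, ∀ e ∈ T, e.Holds z}).exists_maximal hne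
  obtain ⟨⟨hxT, z, hz⟩, hmax⟩ := hT
  have huniq : ∀ y : Fin n → ℂ, (∀ e ∈ T, e.Holds y) → y = z := by
    intro y hy
    by_contra hyz
    obtain ⟨i, hi⟩ := Function.ne_iff.1 hyz
    have hi' : y i - z i ≠ 0 := sub_ne_zero.2 hi
    set t : ℂ := (1 - z i) / (y i - z i) with ht
    have hw : ∀ e ∈ insert (Eqn.one i) T, e.Holds fun j => z j + t * (y j - z j) := by
      intro e he
      rcases he with rfl | he
      · show z i + t * (y i - z i) = 1
        rw [ht, div_mul_cancel₀ _ hi']
        ring
      · have h1 := hz e he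
        have h2 := hy e he
        rcases e with i | ⟨i, j, k⟩
        · have h3 : z i = 1 := h1
          have h4 : y i = 1 := h2
          show z i + t * (y i - z i) = 1
          rw [h3, h4]
          ring
        · have h3 : z i + z j = z k := h1
          have h4 : y i + y j = y k := h2
          show z i + t * (y i - z i) + (z j + t * (y j - z j)) = z k + t * (y k - z k)
          linear_combination (1 - t) * h3 + t * h4
    have h5 : insert (Eqn.one i) T ≤ T :=
      hmax ⟨hxT.trans (Set.subset_insert _ _), _, hw⟩ (Set.subset_insert _ _)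
    have h6 : Eqn.one i ∈ T := h5 (Set.mem_insert _ _)
    have h7 : z i = 1 := hz _ h6
    have h8 : y i = 1 := hy _ h6
    exact hi (h8.trans h7.symm)
  choose y hy hnum _ using unique_solution T z hz huniq
  refine ⟨y, fun i => ?_, fun i hi => ?_, fun i j k hijk => ?_⟩
  · rw [← abs_le]
    have h1 : |y i| ≤ |((y i).num : ℚ)| := by
      conv_lhs => rw [← Rat.num_div_den (y i)]
      rw [abs_div]
      refine div_le_self (abs_nonneg _) ?_
      rw [Nat.abs_cast]
      exact_mod_cast (y i).pos
    refine h1.trans ?_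
    have h2 : ((|(y i).num| : ℤ) : ℚ) ≤ ((2 ^ (n - 1) : ℤ) : ℚ) := by exact_mod_cast hnum i
    push_cast at h2
    exact h2
  · have h0 : Eqn.one i ∈ {e : Eqn n | e.Holds x} := hi
    have h1 : z i = 1 := hz _ (hxT h0)
    have h2 : ((y i : ℚ) : ℂ) = ((1 : ℚ) : ℂ) := by rw [hy, h1, Rat.cast_one]
    exact_mod_cast h2
  · have h0 : Eqn.add i j k ∈ {e : Eqn n | e.Holds x} := hijk
    have h1 : z i + z j = z k := hz _ (hxT h0)
    have h2 : ((y i + y j : ℚ) : ℂ) = ((y k : ℚ) : ℂ) := by rw [Rat.cast_add, hy, hy, hy, h1]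
    exact_mod_cast h2

end Pool.Agent.Results.MP_e9426e_al.SmallRationalSolution
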